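import Pool.Agent.Y874.TP.Stm
import Pool.Agent.Y468.SR.Saddle
import Pool.Agent.Y468.SR.Main

/-!
# Planarity of the diagram after the move of type III (job TP-OUTP of helper874)
-/

set_option autoImplicit false

namespace Pool.Agent.Y514.TP

open Pool.Agent.Y468.SR Pool.Agent.Y874.TP

section runs

variable {S : Type} {b' f' bk fr : Pass → S} {g : Pass → List Pass}

theorem bwd_aux {w : List Pass}
    (h1 : ∀ q ∈ w, ∀ x y, Run b' f' x (g q) y → x = bk q ∧ y = fr q)
    {s s' : S} (h : Run b' f' s (w.flatMap g) s') : Run bk fr s w s' := by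
  induction w generalizing s with
  | nil => exact h
  | cons q w ih =>
    rw [List.flatMap_cons] at h
    obtain ⟨m, e1, e2⟩ := run_append.1 h
    obtain ⟨e3, e4⟩ := h1 q (by simp) _ _ e1
    refine ⟨e3, ?_⟩
    rw [← e4]
    exact ih (fun q hq => h1 q (by simp [hq])) e2

theorem bwd {p r : Pass} {w : List Pass} (ha : Adj p r w)
    (h1 : ∀ q ∈ w, q ≠ p → q ≠ r → ∀ x y, Run b' f' x (g q) y → x = bk q ∧ y = fr q)
    (h2 : ∀ x y, Run b' f' x (g p ++ g r) y → x = bk p ∧ y = fr r)
    (h3 : fr p = bk r) {s s' : S} (h : Run b' f' s (w.flatMap g) s') : Run bk fr s w s' := by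
  rcases ha with ⟨n1, n2⟩ | ⟨w₁, w₂, rfl, n1, n2, n3, n4⟩
  · exact bwd_aux (fun q hq => h1 q hq (by rintro rfl; exact n1 hq) (by rintro rfl; exact n2 hq)) h
  · rw [List.flatMap_append, List.flatMap_cons, List.flatMap_cons, ← List.append_assoc (g p)] at h
    obtain ⟨m, e1, e2⟩ := run_append.1 h
    obtain ⟨m', e3, e4⟩ := run_append.1 e2
    obtain ⟨e5, e6⟩ := h2 _ _ e3
    refine run_append.2 ⟨m, bwd_aux (fun q hq => h1 q (by simp [hq]) (by rintro rfl; exact n1 hq)
      (by rintro rfl; exact n2 hq)) e1, e5, h3, ?_⟩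
    rw [← e6]
    exact bwd_aux (fun q hq => h1 q (by simp [hq]) (by rintro rfl; exact n3 hq)
      (by rintro rfl; exact n4 hq)) e4

theorem fwd_aux {w : List Pass}
    (h1 : ∀ q ∈ w, Run b' f' (bk q) (g q) (fr q))
    {s s' : S} (h : Run bk fr s w s') : Run b' f' s (w.flatMap g) s' := by
  induction w generalizing s with
  | nil => exact h
  | cons q w ih =>
    rw [List.flatMap_cons]
    obtain ⟨e1, e2⟩ := h
    refine run_append.2 ⟨fr q, ?_, ih (fun q hq => h1 q (by simp [hq])) e2⟩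
    rw [e1]
    exact h1 q (by simp)

theorem fwd {p r : Pass} {w : List Pass} (ha : Adj p r w)
    (h1 : ∀ q ∈ w, q ≠ p → q ≠ r → Run b' f' (bk q) (g q) (fr q))
    (h2 : Run b' f' (bk p) (g p ++ g r) (fr r))
    {s s' : S} (h : Run bk fr s w s') : Run b' f' s (w.flatMap g) s' := by
  rcases ha with ⟨n1, n2⟩ | ⟨w₁, w₂, rfl, n1, n2, n3, n4⟩
  · exact fwd_aux (fun q hq => h1 q hq (by rintro rfl; exact n1 hq) (by rintro rfl; exact n2 hq)) h
  · rw [List.flatMap_append, List.flatMap_cons, List.flatMap_cons, ← List.append_assoc (g p)]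
    obtain ⟨m, e1, e2, e3, e4⟩ := run_append.1 h
    refine run_append.2 ⟨m, fwd_aux (fun q hq => h1 q (by simp [hq]) (by rintro rfl; exact n1 hq)
      (by rintro rfl; exact n2 hq)) e1, run_append.2 ⟨fr r, ?_, ?_⟩⟩
    · rw [e2]
      exact h2
    · exact fwd_aux (fun q hq => h1 q (by simp [hq]) (by rintro rfl; exact n3 hq)
        (by rintro rfl; exact n4 hq)) e4

theorem blk {w : List Pass} {q : Pass} (hq : q ∈ w) {s s' : S}
    (h : Run b' f' s (w.flatMap g) s') : ∃ x y, Run b' f' x (g q) y := by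
  obtain ⟨w₁, w₂, rfl⟩ := List.append_of_mem hq
  rw [List.flatMap_append, List.flatMap_cons] at h
  obtain ⟨m, -, e2⟩ := run_append.1 h
  obtain ⟨m', e3, -⟩ := run_append.1 e2
  exact ⟨m, m', e3⟩

theorem blk2 {a c : List Pass} {p r : Pass} {s s' : S}
    (h : Run b' f' s ((a ++ p :: r :: c).flatMap g) s') : ∃ x y, Run b' f' x (g p ++ g r) y := by
  rw [List.flatMap_append, List.flatMap_cons, List.flatMap_cons, ← List.append_assoc (g p)] at h
  obtain ⟨m, -, e2⟩ := run_append.1 h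
  obtain ⟨m', e3, -⟩ := run_append.1 e2
  exact ⟨m, m', e3⟩

end runs

/-- the crossing strand comes from the right -/
def sg (q : Pass) : Bool := q.isOver == q.isPos

theorem corner_mate (q : Pass) (f l : Bool) :
    q.mate.corner f l = q.corner (xor l (sg q)) (!(xor f (sg q))) := by
  rcases q with ⟨c, o, s⟩
  cases o <;> cases s <;> cases f <;> cases l <;> rfl

/-- the position of a corner -/
def dcr (q : Pass) (x : Bool × Bool) : Bool × Bool :=
  if q.isOver then (xor x.2 q.isPos, x.1) else (!(xor x.1 q.isPos), x.2)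

theorem dcr_corner (q : Pass) (f l : Bool) : dcr q (q.corner f l).2 = (f, l) := by
  rcases q with ⟨c, o, s⟩
  cases o <;> cases s <;> cases f <;> cases l <;> rfl

/-- four values: left and right before, left and right after -/
def mk4 (a b c d : ℤ) (x : Bool × Bool) : ℤ :=
  if x.1 then (if x.2 then c else d) else (if x.2 then a else b)

@[simp] theorem mk4_ft (a b c d : ℤ) : mk4 a b c d (false, true) = a := rfl
@[simp] theorem mk4_ff (a b c d : ℤ) : mk4 a b c d (false, false) = b := rfl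
@[simp] theorem mk4_tt (a b c d : ℤ) : mk4 a b c d (true, true) = c := rfl
@[simp] theorem mk4_tf (a b c d : ℤ) : mk4 a b c d (true, false) = d := rfl

/-- the new passages -/
def A1 (p r : Pass) (tc : Bool) (na : ℕ) : Pass := ⟨na, tc, !sgn p r tc⟩
def B1 (p r : Pass) (tc : Bool) (nb : ℕ) : Pass := ⟨nb, tc, sgn p r tc⟩

theorem sg_A1 (p r : Pass) (tc : Bool) (na : ℕ) : sg (A1 p r tc na) = sg r := by
  rcases p with ⟨c, o, s⟩
  rcases r with ⟨c', o', s'⟩
  cases o <;> cases s <;> cases o' <;> cases s' <;> cases tc <;> rfl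

theorem sg_B1 (p r : Pass) (tc : Bool) (nb : ℕ) : sg (B1 p r tc nb) = !sg r := by
  rcases p with ⟨c, o, s⟩
  rcases r with ⟨c', o', s'⟩
  cases o <;> cases s <;> cases o' <;> cases s' <;> cases tc <;> rfl

theorem par_eq (p r : Pass) : par p r = (sg p == sg r) := rfl

theorem passes_out (p r : Pass) (tc : Bool) (na nb : ℕ) (D : Code) :
    passes (out p r tc na nb D) = (passes D).flatMap (ext p r tc na nb) := by
  unfold passes out
  rw [List.flatMap_map, List.flatMap_assoc]

theorem A1_mate (p r : Pass) (tc : Bool) (na : ℕ) :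
    (A1 p r tc na).mate = ⟨na, !tc, !sgn p r tc⟩ := rfl

theorem B1_mate (p r : Pass) (tc : Bool) (nb : ℕ) :
    (B1 p r tc nb).mate = ⟨nb, !tc, sgn p r tc⟩ := rfl

theorem mate_ne (q : Pass) : q.mate ≠ q := by
  intro h
  simpa [Pass.mate] using congrArg Pass.isOver h

theorem flatMap_one {g : Pass → List Pass} {l : List Pass} (h : ∀ q ∈ l, g q = [q]) :
    l.flatMap g = l := by
  induction l with
  | nil => rfl
  | cons q l ih =>
    rw [List.flatMap_cons, h q (by simp), ih (fun q hq => h q (by simp [hq]))]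
    rfl

section wf

variable {p r : Pass} {tc : Bool} {na nb : ℕ}

/-- first and last member of the block of `r.mate` -/
def K1 (p r : Pass) (tc : Bool) (na nb : ℕ) : Pass :=
  if par p r then (A1 p r tc na).mate else (B1 p r tc nb).mate
def K2 (p r : Pass) (tc : Bool) (na nb : ℕ) : Pass :=
  if par p r then (B1 p r tc nb).mate else (A1 p r tc na).mate

theorem ext_p : ext p r tc na nb p = [r] := by
  simp [ext]

theorem ext_r (h : p.crossing ≠ r.crossing) : ext p r tc na nb r = [p] := by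
  have : r ≠ p := fun e => h (congrArg Pass.crossing e).symm
  simp [ext, this]

theorem ext_pm (h : p.crossing ≠ r.crossing) :
    ext p r tc na nb p.mate = [A1 p r tc na, p.mate, B1 p r tc nb] := by
  have h1 : p.mate ≠ p := mate_ne p
  have h2 : p.mate ≠ r := fun e => h (congrArg Pass.crossing e : p.mate.crossing = r.crossing)
  simp only [ext, h1, h2, if_false, if_true]
  rfl

theorem ext_rm (h : p.crossing ≠ r.crossing) :
    ext p r tc na nb r.mate = [K1 p r tc na nb, r.mate, K2 p r tc na nb] := by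
  have h1 : r.mate ≠ r := mate_ne r
  have h2 : r.mate ≠ p := fun e => h (congrArg Pass.crossing e : r.mate.crossing = p.crossing).symm
  have h3 : r.mate ≠ p.mate := fun e =>
    h (congrArg Pass.crossing e : r.mate.crossing = p.mate.crossing).symm
  simp only [ext, h1, h2, h3, if_false, if_true, K1, K2]
  cases par p r <;> rfl

theorem ext_q {q : Pass} (h1 : q ≠ p) (h2 : q ≠ r) (h3 : q ≠ p.mate) (h4 : q ≠ r.mate) :
    ext p r tc na nb q = [q] := by
  simp only [ext, h1, h2, h3, h4, if_false]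

theorem perm_out {l : List Pass} (hl : l.Nodup) (h : p.crossing ≠ r.crossing) (hp : p ∈ l)
    (hr : r ∈ l) (hpm : p.mate ∈ l) (hrm : r.mate ∈ l) :
    (l.flatMap (ext p r tc na nb)).Perm
      (l ++ [A1 p r tc na, B1 p r tc nb, (A1 p r tc na).mate, (B1 p r tc nb).mate]) := by
  have e1 : p.mate ≠ p := mate_ne p
  have e2 : r.mate ≠ r := mate_ne r
  have e3 : p ≠ r := fun e => h (congrArg Pass.crossing e)
  have e4 : p.mate ≠ r := fun e => h (congrArg Pass.crossing e : p.mate.crossing = r.crossing)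
  have e5 : r.mate ≠ p := fun e => h (congrArg Pass.crossing e : r.mate.crossing = p.crossing).symm
  have e6 : r.mate ≠ p.mate := fun e =>
    h (congrArg Pass.crossing e : r.mate.crossing = p.mate.crossing).symm
  set l1 := l.erase p with hl1
  set l2 := l1.erase r with hl2
  set l3 := l2.erase p.mate with hl3
  set l4 := l3.erase r.mate with hl4
  have n1 : l1.Nodup := hl.erase p
  have n2 : l2.Nodup := n1.erase r
  have n3 : l3.Nodup := n2.erase p.mate
  have m1 : r ∈ l1 := (hl.mem_erase_iff).2 ⟨e3.symm, hr⟩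
  have m2 : p.mate ∈ l2 := (n1.mem_erase_iff).2 ⟨e4, (hl.mem_erase_iff).2 ⟨e1, hpm⟩⟩
  have m3 : r.mate ∈ l3 := (n2.mem_erase_iff).2 ⟨e6, (n1.mem_erase_iff).2 ⟨e2,
    (hl.mem_erase_iff).2 ⟨e5, hrm⟩⟩⟩
  have hperm : l.Perm (p :: r :: p.mate :: r.mate :: l4) :=
    (List.perm_cons_erase hp).trans (((List.perm_cons_erase m1).trans
      (((List.perm_cons_erase m2).trans ((List.perm_cons_erase m3).cons _)).cons _)).cons _)
  have h4 : l4.flatMap (ext p r tc na nb) = l4 := by
    have h5 : ∀ q ∈ l4, ext p r tc na nb q = [q] := by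
      intro q hq
      rw [hl4, n3.mem_erase_iff, hl3, n2.mem_erase_iff, hl2, n1.mem_erase_iff, hl1,
        hl.mem_erase_iff] at hq
      exact ext_q hq.2.2.2.1 hq.2.2.1 hq.2.1 hq.1
    exact flatMap_one h5
  refine (hperm.flatMap_right _).trans (List.Perm.trans ?_ (hperm.append_right _).symm)
  rw [List.flatMap_cons, List.flatMap_cons, List.flatMap_cons, List.flatMap_cons, h4, ext_p,
    ext_r h, ext_pm h, ext_rm h]
  unfold K1 K2
  refine List.perm_iff_count.2 fun x => ?_
  split_ifs <;> simp only [List.count_append, List.count_cons, List.count_nil] <;> omega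

theorem wf_out {l : List Pass} (hw : WF l) (h : p.crossing ≠ r.crossing) (hp : p ∈ l)
    (hr : r ∈ l) (hn : na ≠ nb) (hf : ∀ q ∈ l, q.crossing ≠ na ∧ q.crossing ≠ nb) :
    WF (l.flatMap (ext p r tc na nb)) := by
  refine WF.perm (perm_out hw.nodup h hp hr (hw.1 p hp) (hw.1 r hr)).symm ⟨?_, ?_⟩
  · intro q hq
    rw [List.mem_append] at hq ⊢
    rcases hq with hq | hq
    · exact Or.inl (hw.1 q hq)
    · right
      simp only [List.mem_cons, List.not_mem_nil, or_false] at hq ⊢
      rcases hq with rfl | rfl | rfl | rfl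
      · simp
      · simp
      · simp
      · simp
  · rw [List.map_append, List.nodup_append]
    refine ⟨hw.2, ?_, ?_⟩
    · simp only [List.map_cons, List.map_nil, A1, B1, Pass.mate]
      cases tc <;> simp [hn, hn.symm]
    · intro x hx y hy
      rw [List.mem_map] at hx hy
      obtain ⟨q, hq, rfl⟩ := hx
      obtain ⟨q', hq', rfl⟩ := hy
      simp only [List.mem_cons, List.not_mem_nil, or_false] at hq'
      have h1 := hf q hq
      intro h2
      have h3 : q.crossing = q'.crossing := congrArg Prod.fst h2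
      rcases hq' with rfl | rfl | rfl | rfl
      · exact h1.1 h3
      · exact h1.2 h3
      · exact h1.1 h3
      · exact h1.2 h3

end wf

theorem zft : (false == true) = false := rfl
theorem ztf : (true == false) = false := rfl

theorem out_planar : S_OUTP := by
  intro D p r tc C a c na nb hD hC hCe hpr hn hf
  obtain ⟨hw, hpl⟩ := hD
  rw [wf_iff] at hw
  have hmemC : ∀ {C' : List Pass × ℕ}, C' ∈ D → ∀ {q : Pass}, q ∈ C'.1 → q ∈ passes D :=
    fun hC' _ hq => List.mem_flatMap.2 ⟨_, hC', hq⟩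
  have hp : p ∈ passes D := hmemC hC (by rw [hCe]; simp)
  have hr : r ∈ passes D := hmemC hC (by rw [hCe]; simp)
  have hpm : p.mate ∈ passes D := hw.1 p hp
  have hrm : r.mate ∈ passes D := hw.1 r hr
  have e1 : p.mate ≠ p := mate_ne p
  have e2 : r.mate ≠ r := mate_ne r
  have e3 : p ≠ r := fun e => hpr (congrArg Pass.crossing e)
  have e4 : p.mate ≠ r := fun e => hpr (congrArg Pass.crossing e : p.mate.crossing = r.crossing)
  have e5 : r.mate ≠ p := fun e =>
    hpr (congrArg Pass.crossing e : r.mate.crossing = p.crossing).symm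
  have e6 : r.mate ≠ p.mate := fun e =>
    hpr (congrArg Pass.crossing e : r.mate.crossing = p.mate.crossing).symm
  have hadj : ∀ C' ∈ D, Adj p r C'.1 := adj_all hw.nodup hC hCe
  refine ⟨?_, ?_⟩
  · rw [wf_iff, passes_out]
    exact wf_out hw hpr hp hr hn hf
  intro back' front' hcl hcons
  set E := ext p r tc na nb with hE
  have hEp : E p = [r] := ext_p
  have hEr : E r = [p] := ext_r hpr
  have hEpm : E p.mate = [A1 p r tc na, p.mate, B1 p r tc nb] := ext_pm hpr
  have hErm : E r.mate = [K1 p r tc na nb, r.mate, K2 p r tc na nb] := ext_rm hpr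
  have hEq : ∀ {q : Pass}, q ≠ p → q ≠ r → q ≠ p.mate → q ≠ r.mate → E q = [q] :=
    fun h1 h2 h3 h4 => ext_q h1 h2 h3 h4
  have hcl' : ∀ C' ∈ D, Closed back' front' (C'.1.flatMap E) := by
    intro C' hC'
    exact hcl (C'.1.flatMap E, C'.2) (List.mem_map.2 ⟨C', hC', rfl⟩)
  rw [passes_out] at hcons
  have hmemE : ∀ {q q' : Pass}, q ∈ passes D → q' ∈ E q → q' ∈ (passes D).flatMap E :=
    fun h1 h2 => List.mem_flatMap.2 ⟨_, h1, h2⟩
  -- local equations
  have q1 : front' r = back' p := by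
    obtain ⟨s, hs⟩ := hcl' C hC
    rw [hCe] at hs
    obtain ⟨x, y, h⟩ := blk2 hs
    rw [hEp, hEr] at h
    exact h.2.1
  have comp : ∀ q ∈ passes D, ∃ x y, Run back' front' x (E q) y := by
    intro q hq
    obtain ⟨C', hC', hq'⟩ := List.mem_flatMap.1 hq
    obtain ⟨s, hs⟩ := hcl' C' hC'
    exact blk hq' hs
  obtain ⟨q2, q3⟩ : front' (A1 p r tc na) = back' p.mate ∧
      front' p.mate = back' (B1 p r tc nb) := by
    obtain ⟨x, y, h⟩ := comp p.mate hpm
    rw [hEpm] at h
    exact ⟨h.2.1, h.2.2.1⟩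
  obtain ⟨q4, q5⟩ : front' (K1 p r tc na nb) = back' r.mate ∧
      front' r.mate = back' (K2 p r tc na nb) := by
    obtain ⟨x, y, h⟩ := comp r.mate hrm
    rw [hErm] at h
    exact ⟨h.2.1, h.2.2.1⟩
  have c1 := hcons r (hmemE hp (by rw [hEp]; simp))
  have c2 := hcons p (hmemE hr (by rw [hEr]; simp))
  have c3 := hcons (A1 p r tc na) (hmemE hpm (by rw [hEpm]; simp))
  have c4 := hcons (B1 p r tc nb) (hmemE hpm (by rw [hEpm]; simp))
  obtain ⟨t, ht⟩ : ∃ t : ℤ, t = back' r + back' (A1 p r tc na) - front' (B1 p r tc nb) := ⟨_, rfl⟩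
  -- the sum
  have hsum : t + back' (K1 p r tc na nb) = front' p + front' (K2 p r tc na nb) := by
    unfold K1 K2 at *
    cases hpar : par p r
    · simp only [hpar, Bool.false_eq_true, if_false] at *
      omega
    · simp only [hpar, if_true] at *
      omega
  obtain ⟨bk, hbk⟩ : ∃ f : Pass → ℤ, f = fun q => if q = r then t else if q = p then back' r else
    if q = p.mate then back' (A1 p r tc na) else if q = r.mate then back' (K1 p r tc na nb)
    else back' q := ⟨_, rfl⟩
  obtain ⟨fr, hfr⟩ : ∃ f : Pass → ℤ, f = fun q => if q = p then t else if q = r then front' p else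
    if q = p.mate then front' (B1 p r tc nb) else if q = r.mate then front' (K2 p r tc na nb)
    else front' q := ⟨_, rfl⟩
  have b1 : bk p = back' r := by simp [hbk, e3]
  have b2 : bk r = t := by simp [hbk]
  have b3 : bk p.mate = back' (A1 p r tc na) := by simp [hbk, e1, e4]
  have b4 : bk r.mate = back' (K1 p r tc na nb) := by simp [hbk, e2, e5, e6]
  have b5 : ∀ {q : Pass}, q ≠ p → q ≠ r → q ≠ p.mate → q ≠ r.mate → bk q = back' q :=
    fun h1 h2 h3 h4 => by simp [hbk, h1, h2, h3, h4]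
  have f1 : fr p = t := by simp [hfr]
  have f2 : fr r = front' p := by simp [hfr, e3.symm]
  have f3 : fr p.mate = front' (B1 p r tc nb) := by simp [hfr, e1, e4]
  have f4 : fr r.mate = front' (K2 p r tc na nb) := by simp [hfr, e2, e5, e6]
  have f5 : ∀ {q : Pass}, q ≠ p → q ≠ r → q ≠ p.mate → q ≠ r.mate → fr q = front' q :=
    fun h1 h2 h3 h4 => by simp [hfr, h1, h2, h3, h4]
  obtain ⟨u, hu, hd⟩ := hpl bk fr (by
      intro C' hC'
      obtain ⟨s, hs⟩ := hcl' C' hC'
      refine ⟨s, bwd (hadj C' hC') ?_ ?_ (by rw [f1, b2]) hs⟩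
      · intro q hq h1 h2 x y h
        by_cases h3 : q = p.mate
        · subst h3
          rw [hEpm] at h
          rw [b3, f3]
          exact ⟨h.1, h.2.2.2.symm⟩
        · by_cases h4 : q = r.mate
          · subst h4
            rw [hErm] at h
            rw [b4, f4]
            exact ⟨h.1, h.2.2.2.symm⟩
          · rw [hEq h1 h2 h3 h4] at h
            rw [b5 h1 h2 h3 h4, f5 h1 h2 h3 h4]
            exact ⟨h.1, h.2.symm⟩
      · intro x y h
        rw [hEp, hEr] at h
        rw [b1, f2]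
        exact ⟨h.1, h.2.2.symm⟩)
    (by
      intro q hq
      by_cases h1 : q = p
      · subst h1
        rw [b1, b3, f1, f3, ht]
        ring
      by_cases h2 : q = r
      · subst h2
        rw [b2, b4, f2, f4]
        exact hsum
      by_cases h3 : q = p.mate
      · subst h3
        rw [mate_mate', b1, b3, f1, f3, ht]
        ring
      by_cases h4 : q = r.mate
      · subst h4
        rw [mate_mate', b2, b4, f2, f4]
        linarith
      have h5 : q.mate ≠ p := by
        rintro rfl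
        exact h3 (mate_mate' q).symm
      have h6 : q.mate ≠ r := by
        rintro rfl
        exact h4 (mate_mate' q).symm
      have h7 : q.mate ≠ p.mate := fun h => h1 (by simpa using congrArg Pass.mate h)
      have h8 : q.mate ≠ r.mate := fun h => h2 (by simpa using congrArg Pass.mate h)
      rw [b5 h1 h2 h3 h4, b5 h5 h6 h7 h8, f5 h1 h2 h3 h4, f5 h5 h6 h7 h8]
      exact hcons q (hmemE hq (by rw [hEq h1 h2 h3 h4]; simp)))
  replace hu : ∀ C' ∈ D, Closed (bU u) (fU u) C'.1 := hu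
  have hj : fU u p = bU u r := by
    obtain ⟨s, hs⟩ := hu C hC
    rw [hCe] at hs
    obtain ⟨m, -, h⟩ := run_append.1 hs
    exact h.2.1
  obtain ⟨L0, hL0⟩ : ∃ x, x = u (p.corner false true) := ⟨_, rfl⟩
  obtain ⟨R0, hR0⟩ : ∃ x, x = u (p.corner false false) := ⟨_, rfl⟩
  obtain ⟨L1, hL1⟩ : ∃ x, x = u (p.corner true true) := ⟨_, rfl⟩
  obtain ⟨R1, hR1⟩ : ∃ x, x = u (p.corner true false) := ⟨_, rfl⟩
  obtain ⟨L2, hL2⟩ : ∃ x, x = u (r.corner true true) := ⟨_, rfl⟩
  obtain ⟨R2, hR2⟩ : ∃ x, x = u (r.corner true false) := ⟨_, rfl⟩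
  have hj1 : u (r.corner false true) = L1 := by
    rw [hL1]
    exact (congrArg Prod.fst hj).symm
  have hj2 : u (r.corner false false) = R1 := by
    rw [hR1]
    exact (congrArg Prod.snd hj).symm
  have hUp : ∀ f l, u (p.corner f l) = mk4 L0 R0 L1 R1 (f, l) := by
    intro f l
    cases f <;> cases l
    · exact hR0.symm
    · exact hL0.symm
    · exact hR1.symm
    · exact hL1.symm
  have hUr : ∀ f l, u (r.corner f l) = mk4 L1 R1 L2 R2 (f, l) := by
    intro f l
    cases f <;> cases l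
    · exact hj2
    · exact hj1
    · exact hR2.symm
    · exact hL2.symm
  have d1 := hd p hp
  have d2 := hd r hr
  have d3 := hd p.mate hpm
  have d4 := hd r.mate hrm
  simp only [corner_mate, hUp, hUr, b1, b2, b3, b4, f1, f2, f3, f4] at d1 d2 d3 d4
  obtain ⟨tL, htL⟩ : ∃ x : ℤ, x = if sg r then L0 - front' r.mate else L0 + back' r.mate :=
    ⟨_, rfl⟩
  obtain ⟨tR, htR⟩ : ∃ x : ℤ, x = if sg r then R0 - back' r.mate else R0 + front' r.mate :=
    ⟨_, rfl⟩
  obtain ⟨VA, hVA⟩ : ∃ V : Bool × Bool → ℤ,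
    V = if sg p then mk4 R0 R1 tR R2 else mk4 L1 L0 L2 tL := ⟨_, rfl⟩
  obtain ⟨VB, hVB⟩ : ∃ V : Bool × Bool → ℤ,
    V = if sg p then mk4 tL L2 L0 L1 else mk4 R2 tR R1 R0 := ⟨_, rfl⟩
  obtain ⟨u', hu'⟩ : ∃ u' : ℕ × Bool × Bool → ℤ, u' = fun x =>
    if x.1 = p.crossing then mk4 tL tR L2 R2 (dcr p x.2)
    else if x.1 = r.crossing then mk4 L0 R0 tL tR (dcr r x.2)
    else if x.1 = na then VA (dcr (A1 p r tc na) x.2)
    else if x.1 = nb then VB (dcr (B1 p r tc nb) x.2)
    else u x := ⟨_, rfl⟩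
  have x1 : ∀ f l, u' (p.corner f l) = mk4 tL tR L2 R2 (f, l) := by
    intro f l
    simp only [hu', Pass.corner_fst, if_true, dcr_corner]
  have x2 : ∀ f l, u' (r.corner f l) = mk4 L0 R0 tL tR (f, l) := by
    intro f l
    simp only [hu', Pass.corner_fst, hpr.symm, if_false, if_true, dcr_corner]
  have x3 : ∀ f l, u' ((A1 p r tc na).corner f l) = VA (f, l) := by
    intro f l
    have h0 : (A1 p r tc na).crossing = na := rfl
    have h1 : ¬ na = p.crossing := fun h => (hf p hp).1 h.symm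
    have h2 : ¬ na = r.crossing := fun h => (hf r hr).1 h.symm
    simp only [hu', Pass.corner_fst, h0, h1, h2, if_false, if_true, dcr_corner]
  have x4 : ∀ f l, u' ((B1 p r tc nb).corner f l) = VB (f, l) := by
    intro f l
    have h0 : (B1 p r tc nb).crossing = nb := rfl
    have h1 : ¬ nb = p.crossing := fun h => (hf p hp).2 h.symm
    have h2 : ¬ nb = r.crossing := fun h => (hf r hr).2 h.symm
    have h3 : ¬ nb = na := fun h => hn h.symm
    simp only [hu', Pass.corner_fst, h0, h1, h2, h3, if_false, if_true, dcr_corner]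
  have x5 : ∀ q ∈ passes D, q ≠ p → q ≠ r → q ≠ p.mate → q ≠ r.mate → ∀ f l,
      u' (q.corner f l) = u (q.corner f l) := by
    intro q hq h1 h2 h3 h4 f l
    have g1 : ¬ q.crossing = p.crossing := by
      intro h
      rcases WellFormed.eq_mate (wf_iff.2 hw) hp hq h with h | h
      · exact h1 h
      · exact h3 h
    have g2 : ¬ q.crossing = r.crossing := by
      intro h
      rcases WellFormed.eq_mate (wf_iff.2 hw) hr hq h with h | h
      · exact h2 h
      · exact h4 h
    have g3 := (hf q hq).1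
    have g4 := (hf q hq).2
    simp only [hu', Pass.corner_fst, g1, g2, g3, g4, if_false]
  have kK : bU u p = bU u' r ∧ fU u' r = bU u' p ∧ fU u' p = fU u r := by
    simp only [bU, fU, hUp, hUr, x1, x2, mk4_ft, mk4_ff, mk4_tt, mk4_tf, and_self]
  have key : (bU u p.mate = bU u' (A1 p r tc na) ∧ fU u' (A1 p r tc na) = bU u' p.mate ∧
      fU u' p.mate = bU u' (B1 p r tc nb) ∧ fU u' (B1 p r tc nb) = fU u p.mate) ∧
    (bU u r.mate = bU u' (K1 p r tc na nb) ∧ fU u' (K1 p r tc na nb) = bU u' r.mate ∧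
      fU u' r.mate = bU u' (K2 p r tc na nb) ∧ fU u' (K2 p r tc na nb) = fU u r.mate) := by
    cases hσp : sg p <;> cases hσr : sg r <;>
      simp only [bU, fU, K1, K2, par_eq, hσp, hσr, corner_mate, sg_A1, sg_B1, hUp, hUr, x1, x2, x3,
        x4, hVA, hVB, Bool.xor_false, Bool.xor_true, Bool.not_true, Bool.not_false, Bool.false_xor,
        Bool.true_xor, mk4_ft, mk4_ff, mk4_tt, mk4_tf, Bool.false_eq_true, if_true, if_false,
        beq_self_eq_true, zft, ztf, and_self, Bool.xor_self]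
  have diff : (((bU u' p).1 - (bU u' p).2 = back' p ∧ (fU u' p).1 - (fU u' p).2 = front' p) ∧
      ((bU u' r).1 - (bU u' r).2 = back' r ∧ (fU u' r).1 - (fU u' r).2 = front' r)) ∧
      (((bU u' p.mate).1 - (bU u' p.mate).2 = back' p.mate ∧
        (fU u' p.mate).1 - (fU u' p.mate).2 = front' p.mate) ∧
      ((bU u' r.mate).1 - (bU u' r.mate).2 = back' r.mate ∧
        (fU u' r.mate).1 - (fU u' r.mate).2 = front' r.mate)) ∧
      (((bU u' (A1 p r tc na)).1 - (bU u' (A1 p r tc na)).2 = back' (A1 p r tc na) ∧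
        (fU u' (A1 p r tc na)).1 - (fU u' (A1 p r tc na)).2 = front' (A1 p r tc na)) ∧
      ((bU u' (B1 p r tc nb)).1 - (bU u' (B1 p r tc nb)).2 = back' (B1 p r tc nb) ∧
        (fU u' (B1 p r tc nb)).1 - (fU u' (B1 p r tc nb)).2 = front' (B1 p r tc nb))) ∧
      (((bU u' (A1 p r tc na).mate).1 - (bU u' (A1 p r tc na).mate).2 =
          back' (A1 p r tc na).mate ∧
        (fU u' (A1 p r tc na).mate).1 - (fU u' (A1 p r tc na).mate).2 =
          front' (A1 p r tc na).mate) ∧
      ((bU u' (B1 p r tc nb).mate).1 - (bU u' (B1 p r tc nb).mate).2 =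
          back' (B1 p r tc nb).mate ∧
        (fU u' (B1 p r tc nb).mate).1 - (fU u' (B1 p r tc nb).mate).2 =
          front' (B1 p r tc nb).mate)) := by
    cases hσp : sg p <;> cases hσr : sg r <;>
      simp only [bU, fU, K1, K2, par_eq, hσp, hσr, corner_mate, sg_A1, sg_B1, hUp, hUr, x1, x2, x3,
        x4, hVA, hVB, Bool.xor_false, Bool.xor_true, Bool.not_true, Bool.not_false,
        mk4_ft, mk4_ff, mk4_tt, mk4_tf, Bool.false_eq_true, if_true, if_false,
        beq_self_eq_true, zft, ztf, and_self, Bool.xor_self] at d1 d2 d3 d4 htL htR q4 q5 hsum ⊢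
    · refine ⟨⟨⟨?_, ?_⟩, ⟨?_, ?_⟩⟩, ⟨⟨?_, ?_⟩, ⟨?_, ?_⟩⟩, ⟨⟨?_, ?_⟩, ⟨?_, ?_⟩⟩, ⟨⟨?_, ?_⟩, ⟨?_, ?_⟩⟩⟩
      all_goals omega
    · refine ⟨⟨⟨?_, ?_⟩, ⟨?_, ?_⟩⟩, ⟨⟨?_, ?_⟩, ⟨?_, ?_⟩⟩, ⟨⟨?_, ?_⟩, ⟨?_, ?_⟩⟩, ⟨⟨?_, ?_⟩, ⟨?_, ?_⟩⟩⟩
      all_goals omega
    · refine ⟨⟨⟨?_, ?_⟩, ⟨?_, ?_⟩⟩, ⟨⟨?_, ?_⟩, ⟨?_, ?_⟩⟩, ⟨⟨?_, ?_⟩, ⟨?_, ?_⟩⟩, ⟨⟨?_, ?_⟩, ⟨?_, ?_⟩⟩⟩
      all_goals omega
    · refine ⟨⟨⟨?_, ?_⟩, ⟨?_, ?_⟩⟩, ⟨⟨?_, ?_⟩, ⟨?_, ?_⟩⟩, ⟨⟨?_, ?_⟩, ⟨?_, ?_⟩⟩, ⟨⟨?_, ?_⟩, ⟨?_, ?_⟩⟩⟩
      all_goals omega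
  obtain ⟨kA, kB⟩ := key
  obtain ⟨⟨dp, dr⟩, ⟨dpm, drm⟩, ⟨dA, dB⟩, ⟨dAm, dBm⟩⟩ := diff
  refine ⟨u', ?_, ?_⟩
  · intro C1 hC1
    obtain ⟨C', hC', rfl⟩ := List.mem_map.1 hC1
    obtain ⟨s, hs⟩ := hu C' hC'
    refine ⟨s, fwd (b' := bU u') (f' := fU u') (hadj C' hC') ?_ ?_ hs⟩
    · intro q hq h1 h2
      by_cases h3 : q = p.mate
      · subst h3
        rw [← hE, hEpm]
        exact ⟨kA.1, kA.2.1, kA.2.2.1, kA.2.2.2⟩
      by_cases h4 : q = r.mate
      · subst h4
        rw [← hE, hErm]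
        exact ⟨kB.1, kB.2.1, kB.2.2.1, kB.2.2.2⟩
      rw [← hE, hEq h1 h2 h3 h4]
      have h5 := x5 q (hmemC hC' hq) h1 h2 h3 h4
      refine ⟨?_, ?_⟩
      · show bU u q = bU u' q
        simp only [bU, h5]
      · show fU u' q = fU u q
        simp only [fU, h5]
    · rw [← hE, hEp, hEr]
      exact ⟨kK.1, kK.2.1, kK.2.2⟩
  · intro q' hq'
    rw [passes_out] at hq'
    obtain ⟨q, hq, hqq⟩ := List.mem_flatMap.1 hq'
    rw [← hE] at hqq
    by_cases h1 : q = p
    · subst h1
      rw [hEp, List.mem_singleton] at hqq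
      subst hqq
      exact dr
    by_cases h2 : q = r
    · subst h2
      rw [hEr, List.mem_singleton] at hqq
      subst hqq
      exact dp
    by_cases h3 : q = p.mate
    · subst h3
      rw [hEpm] at hqq
      simp only [List.mem_cons, List.not_mem_nil, or_false] at hqq
      rcases hqq with rfl | rfl | rfl
      · exact dA
      · exact dpm
      · exact dB
    by_cases h4 : q = r.mate
    · subst h4
      rw [hErm] at hqq
      simp only [List.mem_cons, List.not_mem_nil, or_false] at hqq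
      rcases hqq with rfl | rfl | rfl
      · unfold K1
        split_ifs
        · exact dAm
        · exact dBm
      · exact drm
      · unfold K2
        split_ifs
        · exact dBm
        · exact dAm
    rw [hEq h1 h2 h3 h4, List.mem_singleton] at hqq
    subst hqq
    have h5 := x5 q' hq h1 h2 h3 h4
    have h6 := hd q' hq
    rw [b5 h1 h2 h3 h4, f5 h1 h2 h3 h4] at h6
    simp only [h5]
    exact h6

end Pool.Agent.Y514.TP
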